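import Pool.Agent.X298.EC.Defs
import Pool.Agent.X298.ST.GLaw

/-!
# Elliptic curves over number fields, Frobenius classes of a Galois extension and rotated sums
-/

set_option autoImplicit false

open Filter Topology Complex
open IsDedekindDomain NumberField

namespace Pool.Agent.X298.EC

open Pool.Agent.X298.ST
open Pool.Agent.W189.ML Pool.Agent.W189.LC Pool.Agent.W187.UR Pool.Agent.X287.CR

variable {K F : Type} [Field K] [NumberField K] [Field F] [NumberField F] [Algebra K F]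
  {S : Set (HeightOneSpectrum (𝓞 K))} {P : Places S → Ideal (𝓞 F)} {A B : 𝓞 K} {α β : Places S → ℂ}

theorem pure (h : IsFrobenius A B α β) : IsPure (tr α β) 1 := by
  refine ⟨2, fun v k => ?_⟩
  have hq : (0 : ℝ) ≤ nrm v := (nrm_pos v).le
  have h1 : (nrm v : ℝ) ^ (((1 : ℤ) : ℝ) / 2) = Real.sqrt (nrm v) := by
    rw [Real.sqrt_eq_rpow]
    norm_num
  rw [h1]
  unfold tr
  refine (norm_add_le _ _).trans ?_
  rw [norm_pow, norm_pow, h.norm_left, h.norm_right]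
  linarith

/-- the coefficients -/
noncomputable def cE (P : Places S → Ideal (𝓞 F)) (α β : Places S → ℂ) (f : (F ≃ₐ[K] F) → ℂ) (x : Places S × ℕ) : ℂ :=
  tr α β x.1 (x.2 + 1) * value P f x.1 (x.2 + 1) / (x.2 + 1)

theorem exp_lam (s : ℂ) (x : Places S × ℕ) :
    exp (-(s * lam nrm x)) = ((nrm x.1 : ℂ) ^ (-s)) ^ (x.2 + 1) := by
  rw [(qsys S).csys.cpow_eq, ← Complex.exp_nat_mul]
  congr 1
  unfold lam
  push_cast
  ring

theorem gsys (hc : IsPure (tr α β) 1) (f : (F ≃ₐ[K] F) → ℂ) : GSys (lam nrm) (cE P α β f) (3 / 2) where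
  cnt := by
    have := (qsys S).cnt
    infer_instance
  nonneg := (qsys S).csys.lam_nonneg
  sum := by
    intro σ hσ
    obtain ⟨b, hb⟩ := coef_le (P := P) hc f (σ := ((1 : ℤ) : ℝ) / 2) le_rfl
    have h1 := co_summable (qsys S) hb (σ := σ - 1 / 2) (by linarith)
    refine h1.congr fun x => ?_
    have e1 : co (fun x : Places S × ℕ => tr α β x.1 (x.2 + 1) * value P f x.1 (x.2 + 1) *
        ((nrm x.1 : ℂ) ^ (-((((1 : ℤ) : ℝ) / 2 : ℝ) : ℂ))) ^ (x.2 + 1)) x =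
        cE P α β f x * exp (-(((((1 : ℤ) : ℝ) / 2 : ℝ) : ℂ) * lam nrm x)) := by
      rw [exp_lam]
      unfold co cE
      ring
    rw [e1, norm_mul, Complex.norm_exp, mul_assoc, ← Real.exp_add]
    congr 2
    have e2 : (-(((((1 : ℤ) : ℝ) / 2 : ℝ) : ℂ) * lam nrm x)).re = -((1 / 2) * lam nrm x) := by
      rw [Complex.neg_re, Complex.re_ofReal_mul, Complex.ofReal_re]
      norm_num
    rw [e2]
    ring

theorem log_eq (f : (F ≃ₐ[K] F) → ℂ) (s : ℂ) : logTwist P (tr α β) f s = sr (lam nrm) (cE P α β f) s := by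
  unfold logTwist sr
  refine tsum_congr fun x => ?_
  rw [exp_lam]
  unfold cE
  ring

theorem pTerm_eq (f : (F ≃ₐ[K] F) → ℂ) (γ : ℝ) (s₀ : ℂ) (T : ℝ) (x : Places S × ℕ) :
    pTerm P α β f γ s₀ T x = cE P α β f x * exp (-(s₀ * lam nrm x)) *
      exp ((γ * (lam nrm x / T) : ℝ) * I) * (om (lam nrm x / T) : ℂ) := by
  rw [exp_lam]
  unfold pTerm cE om lam
  push_cast
  field_simp

theorem pSum_eq (f : (F ≃ₐ[K] F) → ℂ) (γ : ℝ) (s₀ : ℂ) (T : ℝ) :
    pSum P α β f γ s₀ T = -GS (lam nrm) (cE P α β f) s₀ γ T := by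
  unfold pSum GS
  rw [neg_neg]
  exact tsum_congr fun x => pTerm_eq f γ s₀ T x

theorem p_summable (hc : IsPure (tr α β) 1) (f : (F ≃ₐ[K] F) → ℂ) (γ : ℝ) (s₀ : ℂ) {T : ℝ} (hT : 0 < T) :
    Summable fun x => ‖pTerm P α β f γ s₀ T x‖ := by
  refine ((gsys (P := P) hc f).summable s₀ γ hT).congr fun x => ?_
  rw [pTerm_eq]

/-- **the asymptotic formula** -/
theorem p_asy (hc : IsPure (tr α β) 1) {ρ : ℝ} {f : (F ≃ₐ[K] F) → ℂ} {Λ : ℂ → ℂ} (h : IsL P α β ρ f Λ) {γ : ℝ}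
    (hγ : Real.pi / 2 < γ) {s₀ : ℂ} (hs : ρ < s₀.re) :
    ∃ (m : ℤ) (r₀ : ℂ), meromorphicOrderAt Λ s₀ = m ∧ meromorphicTrailingCoeffAt Λ s₀ = exp r₀ ∧
      (fun T : ℝ => pSum P α β f γ s₀ T - (r₀ - m * (Real.log T - Lambda γ))) =O[atTop] (fun T : ℝ => 1 / T) := by
  obtain ⟨m, r₀, h1, h2, h3⟩ := (gsys (P := P) hc f).law (L := Λ) (fun s hs1 => by rw [← log_eq]; exact h.eq s hs1)
    (s₀ := s₀) (fun x hx _ => h.mero _ (by rw [Complex.add_re, Complex.ofReal_re]; linarith)) hγ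
  refine ⟨m, r₀, h1, h2, ?_⟩
  have h4 := h3.neg_left
  refine h4.congr_left fun T => ?_
  rw [pSum_eq]
  have : Lam γ = Lambda γ := rfl
  rw [this]
  ring

theorem pSum_add (hc : IsPure (tr α β) 1) (f g : (F ≃ₐ[K] F) → ℂ) (γ : ℝ) (s₀ : ℂ) {T : ℝ} (hT : 0 < T) :
    pSum P α β (f + g) γ s₀ T = pSum P α β f γ s₀ T + pSum P α β g γ s₀ T := by
  unfold pSum
  rw [← (p_summable (P := P) hc f γ s₀ hT).of_norm.tsum_add (p_summable hc g γ s₀ hT).of_norm]
  refine tsum_congr fun x => ?_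
  unfold pTerm
  rw [value_add]
  ring

theorem pSum_smul (a : ℂ) (f : (F ≃ₐ[K] F) → ℂ) (γ : ℝ) (s₀ : ℂ) (T : ℝ) :
    pSum P α β (a • f) γ s₀ T = a * pSum P α β f γ s₀ T := by
  unfold pSum
  rw [← tsum_mul_left]
  refine tsum_congr fun x => ?_
  unfold pTerm
  rw [value_smul]
  ring

theorem pSum_sum {ι : Type} (hc : IsPure (tr α β) 1) (s : Finset ι) (a : ι → ℂ) (f : ι → (F ≃ₐ[K] F) → ℂ) (γ : ℝ)
    (s₀ : ℂ) {T : ℝ} (hT : 0 < T) :
    pSum P α β (∑ i ∈ s, a i • f i) γ s₀ T = ∑ i ∈ s, a i * pSum P α β (f i) γ s₀ T := by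
  classical
  induction s using Finset.induction_on with
  | empty =>
    simp only [Finset.sum_empty]
    have := pSum_smul (P := P) (α := α) (β := β) 0 (0 : (F ≃ₐ[K] F) → ℂ) γ s₀ T
    simpa using this
  | insert a s ha ih =>
    rw [Finset.sum_insert ha, Finset.sum_insert ha, pSum_add hc _ _ γ s₀ hT, ih, pSum_smul]

theorem pSum_class (hc : IsPure (tr α β) 1) (φ : ConjClasses (F ≃ₐ[K] F) → ℂ) (γ : ℝ) (s₀ : ℂ) {T : ℝ}
    (hT : 0 < T) :
    pSum P α β (fun g => φ (ConjClasses.mk g)) γ s₀ T = ∑ᶠ C, φ C * pClass P α β γ s₀ T C := by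
  classical
  have := fin_gal (K := K) (L := F)
  have : Finite (ConjClasses (F ≃ₐ[K] F)) := Quotient.finite _
  have := Fintype.ofFinite (ConjClasses (F ≃ₐ[K] F))
  have h1 : (fun g : F ≃ₐ[K] F => φ (ConjClasses.mk g)) =
      ∑ C, φ C • fun g : F ≃ₐ[K] F => if ConjClasses.mk g = C then (1 : ℂ) else 0 := by
    funext g
    rw [Finset.sum_apply]
    simp
  rw [h1, pSum_sum hc _ _ _ γ s₀ hT, finsum_eq_sum_of_fintype]
  refine Finset.sum_congr rfl fun C _ => ?_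
  unfold pClass
  congr!

/-- the real part -/
theorem re_law (hc : IsPure (tr α β) 1) {ρ : ℝ} {f : (F ≃ₐ[K] F) → ℂ} {Λ : ℂ → ℂ} (h : IsL P α β ρ f Λ) {γ : ℝ}
    (hγ : Real.pi / 2 < γ) {s₀ : ℂ} (hs : ρ < s₀.re) :
    ∃ (m : ℤ) (C : ℝ), meromorphicOrderAt Λ s₀ = m ∧
      ∀ᶠ T : ℝ in atTop, |(pSum P α β f γ s₀ T).re + m * Real.log T| ≤ C := by
  obtain ⟨m, r₀, h1, -, h3⟩ := p_asy (P := P) hc h hγ hs
  obtain ⟨C, hC⟩ := h3.bound
  refine ⟨m, |C| + ‖r₀ + m * Lambda γ‖, h1, ?_⟩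
  filter_upwards [hC, eventually_ge_atTop (1 : ℝ)] with T hT hT1
  have hT0 : 0 < T := by linarith
  have h4 : ‖pSum P α β f γ s₀ T + m * Real.log T‖ ≤ |C| + ‖r₀ + m * Lambda γ‖ := by
    have e1 : pSum P α β f γ s₀ T + m * Real.log T =
        (pSum P α β f γ s₀ T - (r₀ - m * (Real.log T - Lambda γ))) + (r₀ + m * Lambda γ) := by ring
    rw [e1]
    refine (norm_add_le _ _).trans (add_le_add (hT.trans ?_) le_rfl)
    have h5 : ‖1 / T‖ ≤ 1 := by
      rw [Real.norm_eq_abs, abs_of_pos (by positivity), div_le_one hT0]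
      exact hT1
    calc C * ‖1 / T‖ ≤ |C| * ‖1 / T‖ := mul_le_mul_of_nonneg_right (le_abs_self C) (norm_nonneg _)
      _ ≤ |C| * 1 := mul_le_mul_of_nonneg_left h5 (abs_nonneg _)
      _ = |C| := mul_one _
  have h6 := (Complex.abs_re_le_norm _).trans h4
  have h7 : (pSum P α β f γ s₀ T + m * Real.log T).re = (pSum P α β f γ s₀ T).re + m * Real.log T := by
    rw [Complex.add_re]
    congr 1
    have : ((m : ℂ) * (Real.log T : ℂ)) = (((m : ℝ) * Real.log T : ℝ) : ℂ) := by push_cast; rfl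
    rw [this, Complex.ofReal_re]
  rw [h7] at h6
  exact h6

/-- the criterion at one point -/
theorem crit (hc : IsPure (tr α β) 1) {ρ : ℝ} {f : (F ≃ₐ[K] F) → ℂ} {Λ : ℂ → ℂ} (h : IsL P α β ρ f Λ) {γ : ℝ}
    (hγ : Real.pi / 2 < γ) {s₀ : ℂ} (hs : ρ < s₀.re) :
    (0 ≤ meromorphicOrderAt Λ s₀ → ∃ C : ℝ, ∀ᶠ T : ℝ in atTop, (pSum P α β f γ s₀ T).re ≤ C) ∧
    ((∃ c : ℝ, c < 1 ∧ ∃ᶠ T : ℝ in atTop, (pSum P α β f γ s₀ T).re ≤ c * Real.log T) →
      0 ≤ meromorphicOrderAt Λ s₀) := by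
  obtain ⟨m, C, h1, h2⟩ := re_law (P := P) hc h hγ hs
  constructor
  · intro h0
    rw [h1] at h0
    have hm : 0 ≤ m := by exact_mod_cast h0
    refine ⟨C, ?_⟩
    filter_upwards [h2, eventually_ge_atTop (1 : ℝ)] with T hT hT1
    have h3 := (abs_le.1 hT).2
    have h4 : 0 ≤ (m : ℝ) * Real.log T := mul_nonneg (by exact_mod_cast hm) (Real.log_nonneg hT1)
    linarith
  · rintro ⟨c, hc1, hf⟩
    rw [h1]
    by_contra hneg
    have hm : m < 0 := by
      by_contra h0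
      push Not at h0
      exact hneg (by exact_mod_cast h0)
    have hm1 : (m : ℝ) ≤ -1 := by
      have : m ≤ -1 := by omega
      exact_mod_cast this
    have h4 : ∀ᶠ T : ℝ in atTop, C / (1 - c) < Real.log T :=
      Real.tendsto_log_atTop.eventually (eventually_gt_atTop _)
    obtain ⟨T, h5, h6, h7, h8⟩ := (hf.and_eventually (h2.and (h4.and (eventually_ge_atTop (1 : ℝ))))).exists
    have h9 : 0 ≤ Real.log T := Real.log_nonneg h8
    have h11 := (abs_le.1 h6).1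
    rw [div_lt_iff₀ (by linarith)] at h7
    nlinarith

end Pool.Agent.X298.EC
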