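import Pool.Agent.X298.ST.DDefs

/-!
# Elliptic curves over number fields, Frobenius classes of a Galois extension and rotated sums: definitions
-/

set_option autoImplicit false

open Filter Topology
open IsDedekindDomain NumberField

namespace Pool.Agent.X298.EC

open Pool.Agent.X298.ST

variable {K F : Type} [Field K] [NumberField K] [Field F] [NumberField F] [Algebra K F]
  {S : Set (HeightOneSpectrum (𝓞 K))}

/-- The number of affine points of `E : y² = x³ + A x + B` modulo `v`. -/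
noncomputable def points (A B : 𝓞 K) (v : Places S) : ℕ :=
  Nat.card {xy : (𝓞 K ⧸ v.1.asIdeal) × (𝓞 K ⧸ v.1.asIdeal) //
    xy.2 ^ 2 = xy.1 ^ 3 + Ideal.Quotient.mk v.1.asIdeal A * xy.1 + Ideal.Quotient.mk v.1.asIdeal B}

/-- `α v, β v` are the Frobenius eigenvalues of `E` at `v ∉ S`: the roots of `X² - a_v X + q_v`, `a_v = q_v - points`, of
absolute value `√q_v`. -/
structure IsFrobenius (A B : 𝓞 K) (α β : Places S → ℂ) : Prop where
  add : ∀ v, α v + β v = (nrm v : ℂ) - points A B v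
  mul : ∀ v, α v * β v = nrm v
  norm_left : ∀ v, ‖α v‖ = Real.sqrt (nrm v)
  norm_right : ∀ v, ‖β v‖ = Real.sqrt (nrm v)

/-- `α_v^k + β_v^k` -/
noncomputable def tr (α β : Places S → ℂ) (v : Places S) (k : ℕ) : ℂ := α v ^ k + β v ^ k

/-- `Λ` is `L_S(E ⊗ f, s) = exp ∑_{v ∉ S} ∑_{k ≥ 1} (α_v^k + β_v^k) f(v^k) q_v^{-ks} / k` (`Re s > 3/2`), continued to a
function meromorphic for `Re s > ρ`. -/
structure IsL (P : Places S → Ideal (𝓞 F)) (α β : Places S → ℂ) (ρ : ℝ) (f : (F ≃ₐ[K] F) → ℂ) (Λ : ℂ → ℂ) :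
    Prop where
  eq : ∀ s : ℂ, 3 / 2 < s.re → Λ s = Complex.exp (logTwist P (tr α β) f s)
  mero : ∀ s : ℂ, ρ < s.re → MeromorphicAt Λ s

/-- The term `(α_v^k + β_v^k) f(v^k) q_v^{-k s₀} e^{iγ k log q_v / T} / (k Γ(1 + k log q_v / T))`, `v = x.1`, `k = x.2 + 1`. -/
noncomputable def pTerm (P : Places S → Ideal (𝓞 F)) (α β : Places S → ℂ) (f : (F ≃ₐ[K] F) → ℂ) (γ : ℝ) (s₀ : ℂ)
    (T : ℝ) (x : Places S × ℕ) : ℂ :=
  tr α β x.1 (x.2 + 1) * value P f x.1 (x.2 + 1) * ((nrm x.1 : ℂ) ^ (-s₀)) ^ (x.2 + 1) *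
      Complex.exp ((γ * ((x.2 + 1) * Real.log (nrm x.1) / T) : ℝ) * Complex.I) /
    (((x.2 + 1) * Real.Gamma (1 + (x.2 + 1) * Real.log (nrm x.1) / T) : ℝ) : ℂ)

/-- The rotated sum `S_f(s₀, T)`. -/
noncomputable def pSum (P : Places S → Ideal (𝓞 F)) (α β : Places S → ℂ) (f : (F ≃ₐ[K] F) → ℂ) (γ : ℝ) (s₀ : ℂ)
    (T : ℝ) : ℂ := ∑' x, pTerm P α β f γ s₀ T x

/-- The rotated sum `S_C(s₀, T)` of a conjugacy class `C`. -/
noncomputable def pClass (P : Places S → Ideal (𝓞 F)) (α β : Places S → ℂ) (γ : ℝ) (s₀ : ℂ) (T : ℝ)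
    (C : ConjClasses (F ≃ₐ[K] F)) : ℂ :=
  open Classical in pSum P α β (fun g => if ConjClasses.mk g = C then 1 else 0) γ s₀ T

/-- The permutation character of `G / H`: the number of the cosets fixed by `g`. -/
noncomputable def perm (H : Subgroup (F ≃ₐ[K] F)) (g : F ≃ₐ[K] F) : ℂ :=
  (Nat.card {x : (F ≃ₐ[K] F) ⧸ H // g • x = x} : ℂ)

end Pool.Agent.X298.EC
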